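import Mathlib
import Pool.Agent.H200G.All
import Pool.Agent.H200W.All

set_option autoImplicit false

/-!
# The Harbourne-Hirschowitz conjecture for all classes whose standard form is a union of families

The multiplicities `w` are a UNION OF FAMILIES (`Pool.Agent.H200G.Families`) if the points can be divided
into groups, of any number and any sizes, such that in every group the sum of the squares of the
multiplicities is at least `2 ^ 29` times the number of the different nonzero values times the square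
of the largest one; e.g. if every nonzero value occurs at least `2 ^ 29` times.
`Fam d w` (`Pool.Agent.H200G.Fam`): `w` is a union of families; or there is a union `v ≤ w` of families
with `(d + 2).choose 2 ≤ ∑ (v i + 1).choose 2`; or a union `v` of families on at least these points with
`w ≤ v` and `∑ (v i + 1).choose 2 ≤ (d + 2).choose 2`. This includes all `w` such that the points whose
multiplicity occurs at least `2 ^ 29` times impose at least `(d + 2).choose 2` conditions, and all with
`∑ (w i + 1).choose 2 + 2 ^ 29 ∑ (a + 1).choose 2 ≤ (d + 2).choose 2`, where `a` runs through the other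
values (`Pool.Agent.H200G.rep_fam`).

If finitely many reflections in classes `H - E_i - E_j - E_k` carry `(d; w)` to a standard class
`(d'; w')` with `Fam d' w'`, then for general points the linear system `(d; w)` has the expected
dimension. For every `(d; w)` and general points: the linear system `(d; w)` is special if and only if
it is `(-1)`-special, unless its reduced form is a special standard class `(d'; w')` without
`Fam d' w'`.
-/

namespace Pool.Agent.Results.MP_6b2d39_ag.FamiliesForms

open MvPolynomial Pool.Agent.TH167.SHDefs Pool.Agent.H200G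
open Pool.Agent.Y536.SH (Standard)

/-- For general points the linear system has the expected dimension. -/
def Expected {n : ℕ} (d : ℕ) (w : Fin n → ℕ) : Prop :=
  ∃ F : MvPolynomial (Fin n × Fin 2) ℂ, F ≠ 0 ∧ ∀ P : Fin n → Fin 2 → ℂ,
    MvPolynomial.eval (fun ij : Fin n × Fin 2 => P ij.1 ij.2) F ≠ 0 →
      dimL P d w = max (virtdim d w) (-1)

/-- The reflection of the class `a = (d; w)`, `d H - ∑ w l E l`, in the class
`H - E (i 0) - E (i 1) - E (i 2)`: with `δ = d - w (i 0) - w (i 1) - w (i 2)`, the numbers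
`d`, `w (i 0)`, `w (i 1)`, `w (i 2)` are increased by `δ`. -/
def reflect {n : ℕ} (i : Fin 3 → Fin n) (a : ℤ × (Fin n → ℤ)) : ℤ × (Fin n → ℤ) :=
  (a.1 + (a.1 - a.2 (i 0) - a.2 (i 1) - a.2 (i 2)),
    fun l => a.2 l + if l = i 0 ∨ l = i 1 ∨ l = i 2 then a.1 - a.2 (i 0) - a.2 (i 1) - a.2 (i 2)
      else 0)

/-- Finitely many reflections carry `(d; w)` to `(d'; w')`. -/
def Carries {n : ℕ} (d : ℕ) (w : Fin n → ℕ) (d' : ℕ) (w' : Fin n → ℕ) : Prop :=
  Relation.ReflTransGen
    (fun a b : ℤ × (Fin n → ℤ) => ∃ i : Fin 3 → Fin n, Function.Injective i ∧ b = reflect i a)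
    ((d : ℤ), fun l => (w l : ℤ)) ((d' : ℤ), fun l => (w' l : ℤ))

theorem of_open {n : ℕ} {d : ℕ} {w : Fin n → ℕ}
    (h : ∀ {K : Type} [Field K] [CharZero K] {P : Fin n → Fin 2 → K},
      AlgebraicIndependent ℚ (fun ij : Fin n × Fin 2 => P ij.1 ij.2) →
        Pool.Agent.H932R3.ExpDim K w P d) : Expected d w := by
  obtain ⟨F, hF, hF'⟩ := Pool.Agent.TH442.NF.to_open h
  refine ⟨F.map (algebraMap ℚ ℂ), Pool.Agent.H932R3.map_ne_zero_of hF, fun P hP => ?_⟩
  rw [MvPolynomial.eval_map] at hP
  have h1 : Module.finrank ℂ ↥(sys P d w) =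
      Nat.choose (d + 2) 2 - ∑ i, Nat.choose (w i + 1) 2 := hF' (L := ℂ) P hP
  have h2 : ∑ i, ((w i + 1).choose 2 : ℤ) = ((∑ i, Nat.choose (w i + 1) 2 : ℕ) : ℤ) := by
    push_cast
    rfl
  unfold dimL virtdim
  rw [h1, h2]
  omega

theorem result (n : ℕ) (hn : 4 ≤ n) (d : ℕ) (w : Fin n → ℕ) :
    (∀ (d' : ℕ) (w' : Fin n → ℕ), Carries d w d' w' → Standard d' w' → Fam d' w' →
      Expected d w) ∧
    ∃ F : MvPolynomial (Fin n × Fin 2) ℂ, F ≠ 0 ∧
      ∀ P : Fin n → Fin 2 → ℂ, MvPolynomial.eval (fun ij : Fin n × Fin 2 => P ij.1 ij.2) F ≠ 0 →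
        (MinusOneSpecial P d w → Special P d w) ∧
        (Special P d w → MinusOneSpecial P d w ∨
          ∃ (d'' : ℕ) (w'' : Fin n → ℕ) (k : ℕ) (G : Fin k → MvPolynomial (Fin 3) ℂ)
            (e : Fin k → ℕ) (u : Fin k → Fin n → ℕ) (N : Fin k → ℕ) (d' : ℕ) (w' : Fin n → ℕ),
            Decomp P d w d'' w'' G e u N ∧
            Relation.ReflTransGen Quadratic (d'', w'') (d', w') ∧ Standard d' w' ∧
            Special P d' w' ∧ ¬ Fam d' w') := by
  refine ⟨fun d' w' h1 hs hG => of_open fun hP =>
    Pool.Agent.TH442.NF.up_enef hP h1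
      (Pool.Agent.TH442.NF.enef_of_std hn _ hs) (fam_all hG hP), ?_⟩
  obtain ⟨F, hF, hF'⟩ := Pool.Agent.TH442.NF.hh_open hn
    (Q := fun d' w' => Fam d' w') (fun hP _ w1 _ hG => fam_all hG hP) d w
  refine ⟨F, hF, fun P hP => ⟨(hF' P hP).1, fun hs => ?_⟩⟩
  rcases (hF' P hP).2 hs with h | ⟨d'', w'', k, G, e, u, N, d', w', a1, a2, a3, a4, a5⟩
  · exact Or.inl h
  · exact Or.inr ⟨d'', w'', k, G, e, u, N, d', w', a1, a2, a3, a4, a5⟩

end Pool.Agent.Results.MP_6b2d39_ag.FamiliesForms
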