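import Mathlib
import Pool.Agent.H200M.Near2

set_option autoImplicit false

/-!
# The Harbourne-Hirschowitz conjecture unless the standard form is critical outside three points

A class `(d; w)` is CRITICAL OUTSIDE THREE POINTS (`Pool.Agent.H200M.Tight3 c`, for a function `c` with
positive values) if for every `ε > 0` and all three points `p` with arbitrary multiplicities
`w (p 2) ≤ w (p 1) ≤ w (p 0)`, `w (p 0) + w (p 1) + w (p 2) ≤ d`, such that `w i ≤ c(ε) (d - w (p 0))` for
all other points `i`, the volume `X = (d + 1) (d + 2) - ∑_j w (p j) (w (p j) + 1)` left by the three points is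
filled by the large ones of the other multiplicities up to the part `ε` (`Pool.Agent.H200M.Tight`): all other
multiplicities together have `|X - ∑ w i (w i + 1)| < ε X`; and
for every `μ` such that all nonzero values `≤ μ` at the other points are taken at least `2 ^ 29` times
there, or the number `k` of the values `≤ μ` satisfies `(k + 1) μ ^ 2 ≤ c(ε) X`, the other
multiplicities `> c(ε) μ` have `∑ w i ^ 2 > (1 - ε) X` and those `≤ c(ε) μ` have `∑ w i ^ 2 < ε X`.
(`μ = a X ^ (1 / 3)` with a small constant `a` is always such a number, `Pool.Agent.H200M.few_cube`.)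

There is a function `c` with positive values such that: if finitely many reflections in classes
`H - E_i - E_j - E_k` carry `(d; w)` to a standard class which is not critical outside three points, then
for general points the linear system `(d; w)` has the expected dimension. For every `(d; w)` and
general points: the linear system `(d; w)` is special if and only if it is `(-1)`-special, unless its
reduced form is a special standard class which is critical outside three points. The numbers of points
and the multiplicities are arbitrary: `c` depends on nothing.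

Without any exception: for all `ε > 0` and all three points `p` as above (of a standard class to
which finitely many reflections carry the given class) such that all
other multiplicities are at most `c(ε) (d - w (p 0))`, the dimension of the space of forms is at most
`max (χ, ε X / 2)` (`Pool.Agent.H200M.Bound3`); here `X / 2` is the number of forms left by the three
points, as expected.
-/

namespace Pool.Agent.Results.MP_6b2d39_ag.ThreeArbitraryForms

open MvPolynomial Pool.Agent.TH167.SHDefs Pool.Agent.H200M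
open Pool.Agent.Y536.SH (Standard)

/-- For general points the linear system has the expected dimension. -/
def Expected {n : ℕ} (d : ℕ) (w : Fin n → ℕ) : Prop :=
  ∃ F : MvPolynomial (Fin n × Fin 2) ℂ, F ≠ 0 ∧ ∀ P : Fin n → Fin 2 → ℂ,
    MvPolynomial.eval (fun ij : Fin n × Fin 2 => P ij.1 ij.2) F ≠ 0 →
      dimL P d w = max (virtdim d w) (-1)

/-- The reflection of the class `a = (d; w)`, `d H - ∑ w l E l`, in the class
`H - E (i 0) - E (i 1) - E (i 2)`: with `δ = d - w (i 0) - w (i 1) - w (i 2)`, the numbers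
`d`, `w (i 0)`, `w (i 1)`, `w (i 2)` are increased by `δ`. -/
def reflect {n : ℕ} (i : Fin 3 → Fin n) (a : ℤ × (Fin n → ℤ)) : ℤ × (Fin n → ℤ) :=
  (a.1 + (a.1 - a.2 (i 0) - a.2 (i 1) - a.2 (i 2)),
    fun l => a.2 l + if l = i 0 ∨ l = i 1 ∨ l = i 2 then a.1 - a.2 (i 0) - a.2 (i 1) - a.2 (i 2)
      else 0)

/-- Finitely many reflections carry `(d; w)` to `(d'; w')`. -/
def Carries {n : ℕ} (d : ℕ) (w : Fin n → ℕ) (d' : ℕ) (w' : Fin n → ℕ) : Prop :=
  Relation.ReflTransGen
    (fun a b : ℤ × (Fin n → ℤ) => ∃ i : Fin 3 → Fin n, Function.Injective i ∧ b = reflect i a)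
    ((d : ℤ), fun l => (w l : ℤ)) ((d' : ℤ), fun l => (w' l : ℤ))

theorem of_open {n : ℕ} {d : ℕ} {w : Fin n → ℕ}
    (h : ∀ {K : Type} [Field K] [CharZero K] {P : Fin n → Fin 2 → K},
      AlgebraicIndependent ℚ (fun ij : Fin n × Fin 2 => P ij.1 ij.2) →
        Pool.Agent.H932R3.ExpDim K w P d) : Expected d w := by
  obtain ⟨F, hF, hF'⟩ := Pool.Agent.TH442.NF.to_open h
  refine ⟨F.map (algebraMap ℚ ℂ), Pool.Agent.H932R3.map_ne_zero_of hF, fun P hP => ?_⟩
  rw [MvPolynomial.eval_map] at hP
  have h1 : Module.finrank ℂ ↥(sys P d w) =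
      Nat.choose (d + 2) 2 - ∑ i, Nat.choose (w i + 1) 2 := hF' (L := ℂ) P hP
  have h2 : ∑ i, ((w i + 1).choose 2 : ℤ) = ((∑ i, Nat.choose (w i + 1) 2 : ℕ) : ℤ) := by
    push_cast
    rfl
  unfold dimL virtdim
  rw [h1, h2]
  omega

theorem result : ∃ c : ℝ → ℝ, (∀ ε, 0 < ε → 0 < c ε) ∧
    ∀ n : ℕ, 4 ≤ n → ∀ (d : ℕ) (w : Fin n → ℕ),
    (∀ (d' : ℕ) (w' : Fin n → ℕ), Carries d w d' w' → Standard d' w' → ¬ Tight3 c d' w' →
      Expected d w) ∧
    ∃ F : MvPolynomial (Fin n × Fin 2) ℂ, F ≠ 0 ∧
      ∀ P : Fin n → Fin 2 → ℂ, MvPolynomial.eval (fun ij : Fin n × Fin 2 => P ij.1 ij.2) F ≠ 0 →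
        (∀ (d' : ℕ) (w' : Fin n → ℕ), Carries d w d' w' → Standard d' w' →
          Bound3 c d' w' ((dimL P d w : ℝ) + 1)) ∧
        (MinusOneSpecial P d w → Special P d w) ∧
        (Special P d w → MinusOneSpecial P d w ∨
          ∃ (d'' : ℕ) (w'' : Fin n → ℕ) (k : ℕ) (G : Fin k → MvPolynomial (Fin 3) ℂ)
            (e : Fin k → ℕ) (u : Fin k → Fin n → ℕ) (N : Fin k → ℕ) (d' : ℕ) (w' : Fin n → ℕ),
            Decomp P d w d'' w'' G e u N ∧
            Relation.ReflTransGen Quadratic (d'', w'') (d', w') ∧ Standard d' w' ∧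
            Special P d' w' ∧ Tight3 c d' w') := by
  obtain ⟨c, hc, H, HB⟩ := dim3_all
  refine ⟨c, hc, fun n hn d w => ⟨fun d' w' h1 hs hG => of_open fun hP =>
    Pool.Agent.TH442.NF.up_enef hP h1
      (Pool.Agent.TH442.NF.enef_of_std hn _ hs) (H w' hG hP), ?_⟩⟩
  obtain ⟨F, hF, hF'⟩ := Pool.Agent.TH442.NF.hh_open hn
    (Q := fun d' w' => ¬ Tight3 c d' w') (fun hP _ w1 _ hG => H w1 hG hP) d w
  obtain ⟨F2, hF2, hF2'⟩ := HB.open hn d w
  refine ⟨F2.map (algebraMap ℚ ℂ) * F, mul_ne_zero (Pool.Agent.H932R3.map_ne_zero_of hF2) hF,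
    fun P hP' => ?_⟩
  rw [map_mul] at hP'
  have hP := right_ne_zero_of_mul hP'
  have hP2 := left_ne_zero_of_mul hP'
  rw [MvPolynomial.eval_map] at hP2
  refine ⟨fun d' w' h1 hs => ?_, (hF' P hP).1, fun hs => ?_⟩
  · have h2 := hF2' ℂ P hP2 d' w' h1 hs
    have h3 : ((dimL P d w : ℝ) + 1) = (Module.finrank ℂ ↥(sys P d w) : ℝ) := by
      unfold dimL
      push_cast
      ring
    rw [h3]
    exact h2
  rcases (hF' P hP).2 hs with h | ⟨d'', w'', k, G, e, u, N, d', w', a1, a2, a3, a4, a5⟩
  · exact Or.inl h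
  · exact Or.inr ⟨d'', w'', k, G, e, u, N, d', w', a1, a2, a3, a4, not_not.1 a5⟩

end Pool.Agent.Results.MP_6b2d39_ag.ThreeArbitraryForms
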